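import Pool.Agent.H77.EA.Targets
import Pool.Agent.H3.AM.Basic

/-!
# Equivariant Alperin–McKay: modules HT (heights are nonnegative, in terms of a defect group) and
CN (index `ℓ`: the number of invariant characters of height zero)
-/

open scoped Classical ComplexConjugate

namespace Pool.Agent.H78.EA

open AMc AMe

theorem ht (hB7 : T_B7) : T_HT := by
  intro F _ π hπ ℓ _ _ Γ _ _ N D θ hθ hD θ' hθ' hblk d hd
  obtain ⟨-, hDN, ⟨x, hxN, hx0, hDx, hDi⟩, -⟩ := hD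
  have hx1 : lam π θ' (csum F (cls N x)) ≠ 0 := by
    rw [hblk _ (csum_cls_mem_self hxN)]
    exact hx0
  have h1 := hB7 F π hπ ℓ Γ N θ' hθ' x hxN hx1 d hd
  have h2 := Subgroup.relIndex_mul_relIndex D (Subgroup.centralizer {x} ⊓ N) N
    (le_inf hDx hDN) inf_le_right
  have h3 : D.relIndex (Subgroup.centralizer {x} ⊓ N) ≠ 0 := fun h => hDi (h ▸ dvd_zero ℓ)
  have h4 : (Subgroup.centralizer {x} ⊓ N).relIndex N ≠ 0 := Subgroup.index_ne_zero_of_finite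
  rw [← h2, padicValNat.mul h3 h4, padicValNat.eq_zero_of_not_dvd hDi, zero_add]
  exact h1

theorem cn (hP0 : T_P0) (hCL : T_CL) (hEX : T_EX) (hCV : T_CV) (hUN : T_UN) (hHT : T_HT)
    (hS1 : T_S1) (hS9 : T_S9) (hE1 : T_E1) (hB4 : T_B4) : T_CN := by
  intro F _ π hπ ℓ _ _ Γ _ _ Q _ _ s X K γ m hPI hγK hγX χ hχ θ hθ hχθ hSta P E hP hEX' hEK hPE
  have hℓ : ℓ.Prime := Fact.out
  obtain ⟨hKX, hnorm, hidx, -, -, -⟩ := hP0 ℓ hℓ Γ Q s X K (γ ^ m) hPI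
  obtain ⟨hcl1, hcl2, hcl3, hcl4⟩ := hCL ℓ hℓ Γ Q s X K (γ ^ m) hPI
  have hPE' : P ≤ E := hEK ▸ inf_le_left
  have hPK : P ≤ K := hP.2.1
  have hrel : E.relIndex X = P.relIndex K := by
    have h1 := Subgroup.relIndex_mul_relIndex P E X hPE' hEX'
    have h2 := Subgroup.relIndex_mul_relIndex P K X hPK hKX
    rw [hPE] at h1
    rw [hidx, ← h1, mul_comm] at h2
    exact (Nat.eq_of_mul_eq_mul_left hℓ.pos h2).symm
  -- the map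
  obtain ⟨f, hf⟩ : ∃ f : (Γ → ℂ) → (Γ → ℂ), ∀ χ' g, f χ' g = if g ∈ K then χ' g else 0 :=
    ⟨fun χ' g => if g ∈ K then χ' g else 0, fun _ _ => rfl⟩
  have hfeq : ∀ χ' : Γ → ℂ, ∀ θ' ∈ IrrS K, (∀ k ∈ K, χ' k = θ' k) → f χ' = θ' := by
    intro χ' θ' hθ' hres
    funext g
    rw [hf]
    split_ifs with hg
    · exact hres g hg
    · exact ((hS1 Γ K θ' hθ').1 g hg).symm
  -- forward
  have hfwd : ∀ χ' ∈ K0F π ℓ X χ E γ, f χ' ∈ K0F π ℓ K θ P γ ∧ Over χ' (f χ') := by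
    rintro χ' ⟨⟨hχ', hblk, d, hd, hdv⟩, hinv⟩
    obtain ⟨θ', hθ', hov⟩ := hE1 Γ K X hKX χ' hχ'
    have hB : Blk π K θ θ' := by
      refine hCV F π hπ ℓ Γ X K hKX hnorm θ hθ θ' hθ' hSta fun z hz => ?_
      rw [← hB4 F π hπ Γ K X hKX hnorm χ' hχ' θ' hθ' hov z hz,
        hblk z (ZA_mono hKX le_rfl hz), hB4 F π hπ Γ K X hKX hnorm χ hχ θ hθ hχθ z hz]
    obtain ⟨-, -, ⟨d', hd'0, hd'⟩, -⟩ := hS1 Γ K θ' hθ'
    have ht := hHT F π hπ ℓ Γ K P θ hθ hP θ' hθ' hB d' hd'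
    have hstab : cj (γ ^ m) θ' = θ' := by
      by_contra hne
      obtain ⟨χ₁, hχ₁, hov₁, hdeg, huniq, -⟩ := hcl2 θ' hθ' hne
      have h1 : χ' = χ₁ := huniq χ' hχ' hov
      rw [← h1, hd, hd'] at hdeg
      have h2 : d = ℓ * d' := by exact_mod_cast hdeg
      have h3 : padicValNat ℓ d = 1 + padicValNat ℓ d' := by
        rw [h2, padicValNat.mul hℓ.ne_zero hd'0.ne', padicValNat_self]
      rw [hdv, hrel] at h3
      omega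
    obtain ⟨-, -, hres⟩ := hcl1 θ' hθ' hstab
    have hr := (hres χ' hχ' hov).1
    have hfe : f χ' = θ' := hfeq χ' θ' hθ' hr
    rw [hfe]
    refine ⟨⟨⟨hθ', hB, d, ?_, ?_⟩, ?_⟩, hov⟩
    · rw [← hr 1 K.one_mem, hd]
    · rw [hdv, hrel]
    · funext g
      show θ' (γ * g * γ⁻¹) = θ' g
      by_cases hg : g ∈ K
      · rw [← hr g hg, ← hr _ ((hγK g).2 hg)]
        exact congrFun hinv g
      · rw [(hS1 Γ K θ' hθ').1 g hg, (hS1 Γ K θ' hθ').1 _ (fun h => hg ((hγK g).1 h))]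
  -- backward
  have hpow : ∀ θ' : Γ → ℂ, cj γ θ' = θ' → cj (γ ^ m) θ' = θ' := by
    intro θ' h
    have h1 : γ ∈ stab (⊤ : Subgroup Γ) θ' := ⟨trivial, h⟩
    exact ((stab (⊤ : Subgroup Γ) θ').pow_mem h1 m).2
  have hbwd : ∀ θ' ∈ K0F π ℓ K θ P γ, ∀ χ₁ ∈ IrrS X, Over χ₁ θ' →
      χ₁ ∈ K0F π ℓ X χ E γ ∧ f χ₁ = θ' := by
    rintro θ' ⟨⟨hθ', hB, d, hd, hdv⟩, hinv⟩ χ₁ hχ₁ hov
    obtain ⟨-, -, hres⟩ := hcl1 θ' hθ' (hpow θ' hinv)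
    have hr := (hres χ₁ hχ₁ hov).1
    refine ⟨⟨⟨hχ₁, ?_, d, ?_, ?_⟩, ?_⟩, hfeq χ₁ θ' hθ' hr⟩
    · refine hUN F π hπ ℓ Γ Q s X K (γ ^ m) hPI χ hχ χ₁ hχ₁ fun z hz => ?_
      rw [hB4 F π hπ Γ K X hKX hnorm χ₁ hχ₁ θ' hθ' hov z hz, hB z (ZA_mono le_rfl hKX hz),
        hB4 F π hπ Γ K X hKX hnorm χ hχ θ hθ hχθ z hz]
    · rw [hr 1 K.one_mem, hd]
    · rw [hdv, hrel]
    · exact hEX ℓ hℓ Γ Q s X K γ m hPI hγK hγX χ₁ hχ₁ θ' hθ' hr hinv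
  -- finiteness
  obtain ⟨fsX, hfsX, -⟩ := hS9 Γ X
  obtain ⟨fsK, hfsK, -⟩ := hS9 Γ K
  have hfinX : (K0F π ℓ X χ E γ).Finite :=
    (Finset.finite_toSet fsX).subset fun χ' h => (hfsX χ').2 h.1.1
  have hfinK : (K0F π ℓ K θ P γ).Finite :=
    (Finset.finite_toSet fsK).subset fun θ' h => (hfsK θ').2 h.1.1
  rw [Set.ncard_eq_toFinset_card _ hfinX, Set.ncard_eq_toFinset_card _ hfinK]
  have hmap : ∀ χ' ∈ hfinX.toFinset, f χ' ∈ hfinK.toFinset := by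
    intro χ' h
    rw [Set.Finite.mem_toFinset] at h ⊢
    exact (hfwd χ' h).1
  rw [Finset.card_eq_sum_card_fiberwise hmap]
  have hfib : ∀ θ' ∈ hfinK.toFinset,
      (hfinX.toFinset.filter (fun χ' => f χ' = θ')).card = ℓ := by
    intro θ' h
    rw [Set.Finite.mem_toFinset] at h
    obtain ⟨-, hcard, -⟩ := hcl1 θ' h.1.1 (hpow θ' h.2)
    refine Eq.trans ?_ hcard
    rw [← Set.ncard_coe_finset]
    congr 1
    ext χ'
    rw [Finset.mem_coe, Finset.mem_filter, Set.Finite.mem_toFinset]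
    constructor
    · rintro ⟨h1, h2⟩
      exact ⟨h1.1.1, h2 ▸ (hfwd χ' h1).2⟩
    · rintro ⟨h1, h2⟩
      exact hbwd θ' h χ' h1 h2
  rw [Finset.sum_congr rfl hfib, Finset.sum_const, smul_eq_mul, mul_comm]

end Pool.Agent.H78.EA
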