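import Pool.Agent.H77.EA.Targets

/-!
# Equivariant Alperin–McKay: module P1 (the intermediate group `X = K⟨γ ^ (n / q)⟩`)
-/

open scoped Classical ComplexConjugate

namespace Pool.Agent.H78.EA

open AMc AMe

section

variable {Γ : Type} [Group Γ]

theorem nm_iff {γ : Γ} {N : Subgroup Γ} : Nm γ N ↔ γ ∈ Subgroup.normalizer (N : Set Γ) := by
  rw [Subgroup.mem_normalizer_iff]
  unfold Nm
  exact ⟨fun h g => (h g).symm, fun h g => (h g).symm⟩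

theorem nm_mem {γ : Γ} {N : Subgroup Γ} (h : Nm γ N) {g : Γ} (hg : g ∈ N) : γ * g * γ⁻¹ ∈ N :=
  (h g).2 hg

theorem nm_zpow {γ : Γ} {N : Subgroup Γ} (h : Nm γ N) (z : ℤ) : Nm (γ ^ z) N := by
  rw [nm_iff] at h ⊢
  exact Subgroup.zpow_mem _ h z

theorem nm_mul {γ δ : Γ} {N : Subgroup Γ} (h : Nm γ N) (h' : Nm δ N) : Nm (γ * δ) N := by
  rw [nm_iff] at h h' ⊢
  exact Subgroup.mul_mem _ h h'

theorem nm_self {k : Γ} {N : Subgroup Γ} (h : k ∈ N) : Nm k N := by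
  rw [nm_iff]
  exact Subgroup.le_normalizer h

theorem nm_inf {γ : Γ} {N P : Subgroup Γ} (h : Nm γ N)
    (h' : γ ∈ Subgroup.normalizer (P : Set Γ)) :
    Nm γ (N ⊓ Subgroup.normalizer (P : Set Γ)) := by
  intro g
  rw [Subgroup.mem_inf, Subgroup.mem_inf, h g]
  refine and_congr_right fun _ => ?_
  constructor
  · intro hg
    have : g = γ⁻¹ * (γ * g * γ⁻¹) * γ := by group
    rw [this]
    exact Subgroup.mul_mem _ (Subgroup.mul_mem _ (Subgroup.inv_mem _ h') hg) h'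
  · intro hg
    exact Subgroup.mul_mem _ (Subgroup.mul_mem _ h' hg) (Subgroup.inv_mem _ h')

/-- the subgroup `K⟨t⟩` for `t` normalising `K` -/
def ext (K : Subgroup Γ) (t : Γ) (ht : Nm t K) : Subgroup Γ where
  carrier := {x | ∃ c : ℤ, ∃ k ∈ K, x = t ^ c * k}
  mul_mem' := by
    rintro a b ⟨c, k, hk, rfl⟩ ⟨c', k', hk', rfl⟩
    refine ⟨c + c', (t ^ (-c')) * k * (t ^ (-c'))⁻¹ * k', K.mul_mem
      (nm_mem (nm_zpow ht (-c')) hk) hk', ?_⟩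
    rw [zpow_add, zpow_neg]
    group
  one_mem' := ⟨0, 1, K.one_mem, by simp⟩
  inv_mem' := by
    rintro a ⟨c, k, hk, rfl⟩
    refine ⟨-c, (t ^ c) * k⁻¹ * (t ^ c)⁻¹, nm_mem (nm_zpow ht c) (K.inv_mem hk), ?_⟩
    rw [zpow_neg]
    group

theorem mem_ext {K : Subgroup Γ} {t : Γ} (ht : Nm t K) {x : Γ} :
    x ∈ ext K t ht ↔ ∃ c : ℤ, ∃ k ∈ K, x = t ^ c * k := Iff.rfl

theorem mul_pow_mem {γ k : Γ} {Y : Subgroup Γ} (h : Nm γ Y) (hk : k ∈ Y) (c : ℕ)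
    (hc : γ ^ c ∈ Y) : (k * γ) ^ c ∈ Y := by
  have key : ∀ c : ℕ, ∃ x ∈ Y, (k * γ) ^ c = x * γ ^ c := by
    intro c
    induction c with
    | zero => exact ⟨1, Y.one_mem, by simp⟩
    | succ c ih =>
      obtain ⟨x, hx, hxe⟩ := ih
      refine ⟨x * (γ ^ (c : ℤ) * k * (γ ^ (c : ℤ))⁻¹), Y.mul_mem hx
        (nm_mem (nm_zpow h c) hk), ?_⟩
      rw [pow_succ, hxe, zpow_natCast, pow_succ]
      group
  obtain ⟨x, hx, hxe⟩ := key c
  rw [hxe]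
  exact Y.mul_mem hx hc

theorem dat_aux {Q₁ : Type} [CommGroup Q₁] (s₁ : Γ →* Q₁) (Y : Subgroup Γ) (γ : Γ) (m : ℕ)
    (h1 : Nm γ Y) (h2 : Y ≤ s₁.ker) (h3 : ∀ c : ℕ, s₁ γ ^ c = 1 → γ ^ c ∈ Y)
    (h4 : orderOf (s₁ γ) = m) (E : Subgroup Γ) (hE : E ≤ Y) (k : Γ) (hk : k ∈ Y)
    (hkE : k * γ ∈ Subgroup.normalizer (E : Set Γ)) : Dat s₁ Y E (k * γ) m := by
  have hkk : s₁ k = 1 := h2 hk
  have hkg : s₁ (k * γ) = s₁ γ := by rw [map_mul, hkk, one_mul]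
  refine ⟨nm_mul (nm_self hk) h1, h2, ?_, ?_, hE, hkE⟩
  · intro c hc
    rw [hkg] at hc
    exact mul_pow_mem h1 hk c (h3 c hc)
  · rw [hkg, h4]

end

theorem p1 : T_P1 := by
  intro q hq Γ _ _ Q _ _ s K P γ n hD hqn
  have hn0 : 0 < n := by
    rw [← hD.ord]
    exact orderOf_pos _
  obtain ⟨m, hm⟩ := hqn
  have hq0 : 0 < q := hq.pos
  have hnq : n / q = m := by
    rw [hm]
    exact Nat.mul_div_cancel_left m hq0
  rw [hnq]
  have hm0 : 0 < m := by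
    rcases Nat.eq_zero_or_pos m with h | h
    · rw [h, mul_zero] at hm; omega
    · exact h
  have hγm : Nm (γ ^ m) K := by
    have := nm_zpow hD.nm (m : ℤ)
    rwa [zpow_natCast] at this
  have hpowz : ∀ z : ℤ, s γ ^ z = 1 → γ ^ z ∈ K := by
    intro z hz
    rcases Int.eq_nat_or_neg z with ⟨a, rfl | rfl⟩
    · rw [zpow_natCast] at hz ⊢
      exact hD.pow a hz
    · rw [zpow_neg, zpow_natCast, inv_eq_one] at hz
      rw [zpow_neg, zpow_natCast]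
      exact K.inv_mem (hD.pow a hz)
  obtain ⟨X, hX⟩ : ∃ X : Subgroup Γ, ∀ x, x ∈ X ↔ ∃ c : ℤ, ∃ k ∈ K, x = (γ ^ m) ^ c * k :=
    ⟨ext K (γ ^ m) hγm, fun x => Iff.rfl⟩
  have hKX : K ≤ X := fun k hk => (hX k).2 ⟨0, k, hk, by simp⟩
  have htX : γ ^ m ∈ X := (hX _).2 ⟨1, 1, K.one_mem, by simp⟩
  have hsX : ∀ x ∈ X, ∃ c : ℤ, s x = s (γ ^ m) ^ c := by
    intro x hx
    obtain ⟨c, k, hk, rfl⟩ := (hX x).1 hx
    refine ⟨c, ?_⟩
    have : s k = 1 := hD.ker hk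
    rw [map_mul, this, mul_one, map_zpow]
  have hnmX : Nm γ X := by
    rw [nm_iff, Subgroup.mem_normalizer_iff]
    intro h
    constructor
    · intro hh
      obtain ⟨c, k, hk, rfl⟩ := (hX h).1 hh
      refine (hX _).2 ⟨c, γ * k * γ⁻¹, nm_mem hD.nm hk, ?_⟩
      have hcomm : γ * (γ ^ m) ^ c = (γ ^ m) ^ c * γ :=
        (((Commute.refl γ).pow_right m).zpow_right c).eq
      calc γ * ((γ ^ m) ^ c * k) * γ⁻¹ = (γ * (γ ^ m) ^ c) * k * γ⁻¹ := by group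
        _ = (γ ^ m) ^ c * (γ * k * γ⁻¹) := by rw [hcomm]; group
    · intro hh
      obtain ⟨c, k, hk, hek⟩ := (hX _).1 hh
      have hnmi : Nm γ⁻¹ K := by
        have := nm_zpow hD.nm (-1 : ℤ)
        rwa [zpow_neg_one] at this
      refine (hX _).2 ⟨c, γ⁻¹ * k * γ⁻¹⁻¹, nm_mem hnmi hk, ?_⟩
      have hcomm : γ⁻¹ * (γ ^ m) ^ c = (γ ^ m) ^ c * γ⁻¹ :=
        (((Commute.refl γ).inv_left.pow_right m).zpow_right c).eq
      calc h = γ⁻¹ * (γ * h * γ⁻¹) * γ := by group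
        _ = γ⁻¹ * (γ ^ m) ^ c * k * γ := by rw [hek]; group
        _ = (γ ^ m) ^ c * (γ⁻¹ * k * γ⁻¹⁻¹) := by rw [hcomm]; group
  have hordt : orderOf (s (γ ^ m)) = q := by
    rw [map_pow, orderOf_pow, hD.ord, hm, Nat.gcd_eq_right (Dvd.intro_left q rfl)]
    exact Nat.mul_div_cancel q hm0
  have hPI : PI q s X K (γ ^ m) := by
    refine ⟨?_, htX, ?_, hordt⟩
    · apply le_antisymm
      · exact le_inf hKX hD.ker
      · intro x hx
        obtain ⟨hx1, hx2⟩ := Subgroup.mem_inf.1 hx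
        obtain ⟨c, k, hk, rfl⟩ := (hX x).1 hx1
        have hsk : s k = 1 := hD.ker hk
        rw [MonoidHom.mem_ker, map_mul, hsk, mul_one, map_zpow, map_pow, ← zpow_natCast,
          ← zpow_mul] at hx2
        have := hpowz _ hx2
        refine K.mul_mem ?_ hk
        rwa [← zpow_natCast, ← zpow_mul]
    · intro x hx
      obtain ⟨c, hc⟩ := hsX x hx
      have h1 : s x ∈ Subgroup.zpowers (s (γ ^ m)) := ⟨c, hc.symm⟩
      rw [← mem_powers_iff_mem_zpowers] at h1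
      obtain ⟨c', hc'⟩ := h1
      exact ⟨c', hc'.symm⟩
  have hker1 : ∀ x ∈ X, (QuotientGroup.mk' (Subgroup.zpowers (s (γ ^ m)))) (s x) = 1 := by
    intro x hx
    obtain ⟨c, hc⟩ := hsX x hx
    rw [hc, QuotientGroup.mk'_apply, QuotientGroup.eq_one_iff]
    exact ⟨c, rfl⟩
  have hkey : ∀ c : ℕ, (QuotientGroup.mk' (Subgroup.zpowers (s (γ ^ m)))) (s γ) ^ c = 1 →
      ∃ z : ℤ, s γ ^ ((c : ℤ) - m * z) = 1 := by
    intro c hc
    rw [← map_pow, QuotientGroup.mk'_apply, QuotientGroup.eq_one_iff] at hc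
    obtain ⟨z, hz⟩ := hc
    refine ⟨z, ?_⟩
    have hz' : s (γ ^ m) ^ z = s γ ^ c := hz
    rw [zpow_sub, zpow_natCast, ← hz', zpow_mul, zpow_natCast, map_pow]
    exact mul_inv_cancel _
  have hord1 : orderOf ((QuotientGroup.mk' (Subgroup.zpowers (s (γ ^ m)))) (s γ)) = m := by
    apply Nat.dvd_antisymm
    · apply orderOf_dvd_of_pow_eq_one
      rw [← map_pow, QuotientGroup.mk'_apply, QuotientGroup.eq_one_iff]
      exact ⟨1, by rw [map_pow]; simp⟩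
    · obtain ⟨z, hz⟩ := hkey _ (pow_orderOf_eq_one _)
      have h1 := orderOf_dvd_iff_zpow_eq_one.2 hz
      rw [hD.ord, hm] at h1
      have h2 : (m : ℤ) ∣ ((q * m : ℕ) : ℤ) := ⟨q, by push_cast; ring⟩
      have h3 := h2.trans h1
      have h4 : (m : ℤ) ∣ (m : ℤ) * z := ⟨z, rfl⟩
      have h5 := (Int.dvd_iff_dvd_of_dvd_sub h3).2 h4
      exact_mod_cast h5
  refine ⟨X, hPI, hnmX, ?_, nm_inf hnmX hD.np, Q ⧸ Subgroup.zpowers (s (γ ^ m)),
    inferInstance, inferInstance,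
    (QuotientGroup.mk' (Subgroup.zpowers (s (γ ^ m)))).comp s, ?_, ?_⟩
  · exact ⟨nm_inf hD.nm hD.np, inf_le_left.trans hD.ker,
      fun c hc => Subgroup.mem_inf.2 ⟨hD.pow c hc, Subgroup.pow_mem _ hD.np c⟩, hD.ord,
      le_inf hD.le Subgroup.le_normalizer, hD.np⟩
  · intro E hE k hk hkE
    refine dat_aux _ X γ m hnmX (fun x hx => ?_) (fun c hc => ?_) hord1 E hE k hk hkE
    · exact hker1 x hx
    · obtain ⟨z, hz⟩ := hkey c hc
      have h1 := hpowz _ hz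
      refine (hX _).2 ⟨z, γ ^ ((c : ℤ) - m * z), h1, ?_⟩
      rw [← zpow_natCast γ m, ← zpow_mul, ← zpow_add, add_sub_cancel, zpow_natCast]
  · intro E hE k hk hkE
    refine dat_aux _ (X ⊓ Subgroup.normalizer (P : Set Γ)) γ m (nm_inf hnmX hD.np)
      (fun x hx => ?_) (fun c hc => ?_) hord1 E hE k hk hkE
    · exact hker1 x (Subgroup.mem_inf.1 hx).1
    · obtain ⟨z, hz⟩ := hkey c hc
      have h1 := hpowz _ hz
      refine Subgroup.mem_inf.2 ⟨(hX _).2 ⟨z, γ ^ ((c : ℤ) - m * z), h1, ?_⟩,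
        Subgroup.pow_mem _ hD.np c⟩
      rw [← zpow_natCast γ m, ← zpow_mul, ← zpow_add, add_sub_cancel, zpow_natCast]

end Pool.Agent.H78.EA
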